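import Pool.Agent.H8.PL.Targets

/-!
Rows FC and NB of the board pl_modules.
-/

set_option autoImplicit false

namespace Pool.Agent.H93.PL

open Pool.Agent.H8.PL

section
variable {V : Type} {G : SimpleGraph V} {σ : Equiv.Perm G.Dart}

theorem cs_adj (h : IsRotation G σ) {x a b : V} (hc : Cs G σ x a b) : G.Adj x a ∧ G.Adj x b := by
  obtain ⟨d, rfl, rfl, rfl⟩ := hc
  refine ⟨d.adj, ?_⟩
  have := (σ d).adj
  rwa [h.fst d] at this

theorem cs_ex {x a : V} (hx : G.Adj x a) (h : IsRotation G σ) : ∃ b, Cs G σ x a b ∧ G.Adj x b := by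
  refine ⟨_, ⟨⟨(x, a), hx⟩, rfl, rfl, rfl⟩, ?_⟩
  have := (σ ⟨(x, a), hx⟩).adj
  rwa [h.fst] at this

theorem dart_ext {d d' : G.Dart} (h1 : d.fst = d'.fst) (h2 : d.snd = d'.snd) : d = d' := by
  apply SimpleGraph.Dart.ext
  exact Prod.ext h1 h2

theorem cs_fun {x a b b' : V} (h1 : Cs G σ x a b) (h2 : Cs G σ x a b') : b = b' := by
  obtain ⟨d, hd1, hd2, hd3⟩ := h1
  obtain ⟨e, he1, he2, he3⟩ := h2
  have : d = e := dart_ext (hd1.trans he1.symm) (hd2.trans he2.symm)
  rw [← hd3, ← he3, this]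

theorem cs_inj (h : IsRotation G σ) {x a a' b : V} (h1 : Cs G σ x a b) (h2 : Cs G σ x a' b) :
    a = a' := by
  obtain ⟨d, hd1, hd2, hd3⟩ := h1
  obtain ⟨e, he1, he2, he3⟩ := h2
  have : σ d = σ e := dart_ext (by rw [h.fst, h.fst, hd1, he1]) (by rw [hd3, he3])
  have := σ.injective this
  rw [← hd2, ← he2, this]

/-- a set of darts which is closed under the rotation in both directions contains everything -/
theorem cyc_set (h : IsRotation G σ) (S : G.Dart → Prop) (hS : ∀ d, S (σ d) ↔ S d) {d d' : G.Dart}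
    (hd : S d) (hf : d.fst = d'.fst) : S d' := by
  obtain ⟨k, hk⟩ := h.cyc d d' hf
  have : ∀ k : ℤ, S ((σ ^ k) d) := by
    intro k
    induction k using Int.induction_on with
    | zero => simpa using hd
    | succ i hi =>
      rw [add_comm, zpow_add, zpow_one, Equiv.Perm.mul_apply, hS]
      exact hi
    | pred i hi =>
      rw [← hS, ← Equiv.Perm.mul_apply, ← zpow_one_add]
      have : (1 : ℤ) + (-(i : ℤ) - 1) = -(i : ℤ) := by ring
      rw [this]; exact hi
  rw [← hk]; exact this k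

theorem cs_two (h : IsRotation G σ) {x a b : V} (h1 : Cs G σ x a b) (h2 : Cs G σ x b a) :
    ∀ c, G.Adj x c → c = a ∨ c = b := by
  intro c hc
  obtain ⟨ha, hb⟩ := cs_adj h h1
  have key : ∀ u v, G.Adj x u → Cs G σ x u v → ∀ hu : G.Adj x u, (σ ⟨(x, u), hu⟩).snd = v := by
    intro u v hu huv hu'
    obtain ⟨d, hd1, hd2, hd3⟩ := huv
    have : d = ⟨(x, u), hu'⟩ := dart_ext hd1 hd2
    rw [← this]; exact hd3
  have hS := cyc_set h (fun d => d.fst = x → (d.snd = a ∨ d.snd = b)) (by
    intro d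
    rw [h.fst]
    constructor
    · intro h3 hd
      have h4 := h3 hd
      rcases h4 with h4 | h4
      · right
        have h5 : Cs G σ x d.snd a := ⟨d, hd, rfl, h4⟩
        exact cs_inj h h5 h2
      · left
        have h5 : Cs G σ x d.snd b := ⟨d, hd, rfl, h4⟩
        exact cs_inj h h5 h1
    · intro h3 hd
      rcases h3 hd with h4 | h4
      · right
        have h5 : Cs G σ x a (σ d).snd := ⟨d, hd, h4, rfl⟩
        exact cs_fun h5 h1
      · left
        have h5 : Cs G σ x b (σ d).snd := ⟨d, hd, h4, rfl⟩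
        exact cs_fun h5 h2) (d := ⟨(x, a), ha⟩) (d' := ⟨(x, c), hc⟩) (fun _ => Or.inl rfl) rfl
  exact hS rfl

theorem cs_self (h : IsRotation G σ) {x a : V} (h1 : Cs G σ x a a) : ∀ b, G.Adj x b → b = a := by
  intro b hb
  rcases cs_two h h1 h1 b hb with h | h <;> exact h

theorem nb4 (h : IsRotation G σ) {x a b c d : V} (hn : [a, b, c, d].Nodup)
    (hs : G.neighborSet x = {a, b, c, d}) (h1 : ¬ Cs G σ x a b) (h2 : ¬ Cs G σ x b a) :
    (Cs G σ x a c ∨ Cs G σ x c a) ∧ (Cs G σ x a d ∨ Cs G σ x d a) ∧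
      (Cs G σ x b c ∨ Cs G σ x c b) ∧ (Cs G σ x b d ∨ Cs G σ x d b) ∧
      ¬ Cs G σ x c d ∧ ¬ Cs G σ x d c := by
  simp only [List.nodup_cons, List.mem_cons, not_or, List.not_mem_nil, not_false_eq_true,
    List.nodup_nil, and_true] at hn
  obtain ⟨⟨hab, hac, had⟩, ⟨hbc, hbd⟩, hcd⟩ := hn
  have hadj : ∀ u, G.Adj x u ↔ u = a ∨ u = b ∨ u = c ∨ u = d := by
    intro u
    rw [← SimpleGraph.mem_neighborSet, hs]; simp
  obtain ⟨na, hna, hna'⟩ := cs_ex ((hadj a).2 (Or.inl rfl)) h
  obtain ⟨nb, hnb, hnb'⟩ := cs_ex ((hadj b).2 (Or.inr (Or.inl rfl))) h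
  obtain ⟨nc, hnc, hnc'⟩ := cs_ex ((hadj c).2 (Or.inr (Or.inr (Or.inl rfl)))) h
  obtain ⟨nd, hnd, hnd'⟩ := cs_ex ((hadj d).2 (Or.inr (Or.inr (Or.inr rfl)))) h
  have hself : ∀ u, ¬ Cs G σ x u u := by
    intro u hu
    have h3 := cs_self h hu
    exact hab ((h3 a ((hadj a).2 (Or.inl rfl))).trans (h3 b ((hadj b).2 (Or.inr (Or.inl rfl)))).symm)
  have htwo : ∀ u v, Cs G σ x u v → Cs G σ x v u → False := by
    intro u v huv hvu
    have h3 := cs_two h huv hvu
    have ha := h3 a ((hadj a).2 (Or.inl rfl))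
    have hb := h3 b ((hadj b).2 (Or.inr (Or.inl rfl)))
    have hc := h3 c ((hadj c).2 (Or.inr (Or.inr (Or.inl rfl))))
    rcases ha with ha | ha <;> rcases hb with hb | hb <;> rcases hc with hc | hc <;>
      first
        | exact hab (ha.trans hb.symm)
        | exact hac (ha.trans hc.symm)
        | exact hbc (hb.trans hc.symm)
  rw [hadj] at hna' hnb' hnc' hnd'
  have hfun := fun {u v v'} (h3 : Cs G σ x u v) (h4 : Cs G σ x u v') => cs_fun h3 h4
  have hinj := fun {u u' v} (h3 : Cs G σ x u v) (h4 : Cs G σ x u' v) => cs_inj h h3 h4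
  have A : Cs G σ x a c ∨ Cs G σ x a d := by
    rcases hna' with rfl | rfl | rfl | rfl
    · exact absurd hna (hself _)
    · exact absurd hna h1
    · exact Or.inl hna
    · exact Or.inr hna
  have B : Cs G σ x b c ∨ Cs G σ x b d := by
    rcases hnb' with rfl | rfl | rfl | rfl
    · exact absurd hnb h2
    · exact absurd hnb (hself _)
    · exact Or.inl hnb
    · exact Or.inr hnb
  rcases A with A | A
  · have B' : Cs G σ x b d := by
      rcases B with B | B
      · exact absurd (hinj A B) hab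
      · exact B
    have C : Cs G σ x c b := by
      rcases hnc' with rfl | rfl | rfl | rfl
      · exact absurd hnc (fun h4 => htwo _ _ A h4)
      · exact hnc
      · exact absurd hnc (hself _)
      · exact absurd (hinj hnc B') (Ne.symm hbc)
    have D : Cs G σ x d a := by
      rcases hnd' with rfl | rfl | rfl | rfl
      · exact hnd
      · exact absurd hnd (fun h4 => htwo _ _ B' h4)
      · exact absurd (hinj hnd A) (Ne.symm had)
      · exact absurd hnd (hself _)
    exact ⟨Or.inl A, Or.inr D, Or.inr C, Or.inl B', fun h4 => hbd (hfun C h4),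
      fun h4 => hac (hfun D h4)⟩
  · have B' : Cs G σ x b c := by
      rcases B with B | B
      · exact B
      · exact absurd (hinj A B) hab
    have C : Cs G σ x c a := by
      rcases hnc' with rfl | rfl | rfl | rfl
      · exact hnc
      · exact absurd hnc (fun h4 => htwo _ _ B' h4)
      · exact absurd hnc (hself _)
      · exact absurd (hinj hnc A) (Ne.symm hac)
    have D : Cs G σ x d b := by
      rcases hnd' with rfl | rfl | rfl | rfl
      · exact absurd hnd (fun h4 => htwo _ _ A h4)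
      · exact hnd
      · exact absurd (hinj hnd B') (Ne.symm hbd)
      · exact absurd hnd (hself _)
    exact ⟨Or.inr C, Or.inl A, Or.inl B', Or.inr D, fun h4 => had (hfun C h4),
      fun h4 => hbc (hfun D h4)⟩

end

/-- Row FC. -/
theorem pf_fc : Z_FC := by
  rintro V G σ ⟨hr, hq⟩ x a b ⟨d, hd1, hd2, hd3⟩
  have h4 := hq d.symm
  have hf : ∀ e : G.Dart, facePerm G σ e = σ e.symm := fun e => rfl
  rw [show (facePerm G σ ^ 4) d.symm = facePerm G σ (facePerm G σ (facePerm G σ
    (facePerm G σ d.symm))) from rfl] at h4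
  simp only [hf, SimpleGraph.Dart.symm_symm] at h4
  -- the darts of the face
  set d1 := σ d with hd1'
  set d2 := σ d1.symm with hd2'
  set d3 := σ d2.symm with hd3'
  have f1 : d1.fst = x := by rw [hd1', hr.fst, hd1]
  have f2 : d2.fst = b := by rw [hd2', hr.fst]; exact hd3
  have f3 : d3.fst = d2.snd := by rw [hd3', hr.fst]; rfl
  have f4 : d3.snd = a := by
    have h5 : (σ d3.symm).fst = d3.snd := by rw [hr.fst]; rfl
    rw [← h5, h4]; exact hd2
  refine ⟨d2.snd, ⟨d1.symm, hd3, f1, rfl⟩, ⟨d2.symm, rfl, f2, f4⟩, ⟨d3.symm, f4, f3, ?_⟩⟩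
  rw [h4]; exact hd1

/-- Row NB. -/
theorem pf_nb : Z_NB := by
  intro V G σ h
  refine ⟨fun x a b hc => cs_adj h hc, fun x a hc => cs_self h hc, ?_, ?_⟩
  · intro x a b hab hs
    have hadj : ∀ u, G.Adj x u ↔ u = a ∨ u = b := by
      intro u
      rw [← SimpleGraph.mem_neighborSet, hs]; simp
    have hself : ∀ u, ¬ Cs G σ x u u := by
      intro u hu
      have h3 := cs_self h hu
      exact hab ((h3 a ((hadj a).2 (Or.inl rfl))).trans (h3 b ((hadj b).2 (Or.inr rfl))).symm)
    obtain ⟨na, hna, hna'⟩ := cs_ex ((hadj a).2 (Or.inl rfl)) h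
    obtain ⟨nb, hnb, hnb'⟩ := cs_ex ((hadj b).2 (Or.inr rfl)) h
    rw [hadj] at hna' hnb'
    constructor
    · rcases hna' with rfl | rfl
      · exact absurd hna (hself _)
      · exact hna
    · rcases hnb' with rfl | rfl
      · exact hnb
      · exact absurd hnb (hself _)
  · intro x a b c d hn hs h1 h2
    exact nb4 h hn hs h1 h2

end Pool.Agent.H93.PL
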