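import Pool.Agent.H8.PL.Targets

/-!
Row OP of the board pl_modules.
-/

set_option autoImplicit false

namespace Pool.Agent.H93.PL

open Pool.Agent.H8.PL

instance (a b : Fin 4) : Decidable (stp a b) := by unfold stp; infer_instance

theorem stp_l3 {a b : Fin 4} (h : stp a b) : a ≠ 3 := by revert a b; decide
theorem stp_r0 {a b : Fin 4} (h : stp a b) : b ≠ 0 := by revert a b; decide

theorem Er.adj {V : Type} {G : SimpleGraph V} {lb : V → Lb} {s : Bool} {x y : V}
    (h : Er G lb s x y) : G.Adj x y := h.1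
theorem Nr.adj {V : Type} {G : SimpleGraph V} {lb : V → Lb} {s : Bool} {x y : V}
    (h : Nr G lb s x y) : G.Adj x y := h.1

section
variable {V : Type} {G : SimpleGraph V} {lb : V → Lb}

/-- adjacency with coordinates -/
theorem adj_co (hL : LR G lb) {u v : V} (h : G.Adj u v) :
    (Ea (lb u) (lb v) ∧ (lb v).i - (lb u).i = 1 ∧ (lb v).j - (lb u).j = 0) ∨
    (Ea (lb v) (lb u) ∧ (lb v).i - (lb u).i = -1 ∧ (lb v).j - (lb u).j = 0) ∨
    (No (lb u) (lb v) ∧ (lb v).i - (lb u).i = 0 ∧ (lb v).j - (lb u).j = 1) ∨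
    (No (lb v) (lb u) ∧ (lb v).i - (lb u).i = 0 ∧ (lb v).j - (lb u).j = -1) := by
  rcases hL.adj u v h with h | h | h | h
  · refine Or.inl ⟨h, ?_, ?_⟩
    · rw [h.2.2.1]; ring
    · rw [h.2.2.2.1]; ring
  · refine Or.inr (Or.inl ⟨h, ?_, ?_⟩)
    · rw [h.2.2.1]; ring
    · rw [h.2.2.2.1]; ring
  · refine Or.inr (Or.inr (Or.inl ⟨h, ?_, ?_⟩))
    · rw [h.2.2.1]; ring
    · rw [h.2.2.2.1]; ring
  · refine Or.inr (Or.inr (Or.inr ⟨h, ?_, ?_⟩))
    · rw [h.2.2.1]; ring
    · rw [h.2.2.2.1]; ring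

/-- the middle of two steps to the east -/
theorem mid_ea (hL : LR G lb) {z w y : V} (h1 : G.Adj z w) (h2 : G.Adj w y)
    (hi : (lb y).i - (lb z).i = 2) : Ea (lb z) (lb w) ∧ Ea (lb w) (lb y) := by
  have hs : ((lb w).i - (lb z).i) + ((lb y).i - (lb w).i) = 2 := by rw [← hi]; ring
  rcases adj_co hL h1 with ⟨a, b, _⟩ | ⟨a, b, _⟩ | ⟨a, b, _⟩ | ⟨a, b, _⟩ <;>
    rcases adj_co hL h2 with ⟨c, d, _⟩ | ⟨c, d, _⟩ | ⟨c, d, _⟩ | ⟨c, d, _⟩ <;>
    rw [b, d] at hs <;> first | exact ⟨a, c⟩ | exact absurd hs (by decide)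

/-- the middle of two steps to the north -/
theorem mid_no (hL : LR G lb) {z w y : V} (h1 : G.Adj z w) (h2 : G.Adj w y)
    (hi : (lb y).j - (lb z).j = 2) : No (lb z) (lb w) ∧ No (lb w) (lb y) := by
  have hs : ((lb w).j - (lb z).j) + ((lb y).j - (lb w).j) = 2 := by rw [← hi]; ring
  rcases adj_co hL h1 with ⟨a, _, b⟩ | ⟨a, _, b⟩ | ⟨a, _, b⟩ | ⟨a, _, b⟩ <;>
    rcases adj_co hL h2 with ⟨c, _, d⟩ | ⟨c, _, d⟩ | ⟨c, _, d⟩ | ⟨c, _, d⟩ <;>
    rw [b, d] at hs <;> first | exact ⟨a, c⟩ | exact absurd hs (by decide)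

/-- the middle vertex of two steps to the east is determined -/
theorem uniq_ea (hL : LR G lb) {s : Bool} {x y z w : V} (hzx : Er G lb s z x) (hxy : Er G lb s x y)
    (h1 : G.Adj z w) (h2 : G.Adj w y) : w = x := by
  have hi : (lb y).i - (lb z).i = 2 := by
    rw [hxy.2.2.2.2.2.1, hzx.2.2.2.2.2.1]; ring
  obtain ⟨hzw, hwy⟩ := mid_ea hL h1 h2 hi
  by_cases hw : ons s (lb w)
  · exact (hL.we s y hxy.2.2.1 (stp_r0 hxy.2.2.2.1)).unique ⟨h2, hw, hxy.2.2.1, hwy⟩ hxy
  · exfalso
    unfold ons at hw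
    push Not at hw
    obtain ⟨hm, hf⟩ := hw
    have hy : ¬ mid (lb y) := by
      intro hy
      apply hf
      rw [← hwy.2.2.2.2 hm hy]
      exact hxy.2.2.1 hy
    have hz : ¬ mid (lb z) := by
      intro hz
      apply hf
      rw [hzw.2.2.2.2 hz hm]
      exact hzx.2.1 hz
    have a1 := hwy.1
    have a2 := hwy.2.1
    have a3 := hzw.1
    have a4 := hzw.2.1
    unfold mid at hm hy hz
    rw [a2] at hy
    rw [← a4] at hz
    generalize (lb y).h = yh at *
    generalize (lb z).h = zh at *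
    generalize (lb w).h = wh at *
    generalize (lb w).v = wv at *
    clear * - a1 a3 hm hy hz
    revert yh zh wh wv
    decide

/-- the middle vertex of two steps to the north is determined -/
theorem uniq_no (hL : LR G lb) {s : Bool} {x y z w : V} (hzx : Nr G lb s z x) (hxy : Nr G lb s x y)
    (h1 : G.Adj z w) (h2 : G.Adj w y) : w = x := by
  have hi : (lb y).j - (lb z).j = 2 := by
    rw [hxy.2.2.2.2.2.2.1, hzx.2.2.2.2.2.2.1]; ring
  obtain ⟨hzw, hwy⟩ := mid_no hL h1 h2 hi
  by_cases hw : ons s (lb w)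
  · exact (hL.so s y hxy.2.2.1 (stp_r0 hxy.2.2.2.2.1)).unique ⟨h2, hw, hxy.2.2.1, hwy⟩ hxy
  · exfalso
    unfold ons at hw
    push Not at hw
    obtain ⟨hm, hf⟩ := hw
    have hy : ¬ mid (lb y) := by
      intro hy
      apply hf
      rw [← hwy.2.2.2.2 hm hy]
      exact hxy.2.2.1 hy
    have hz : ¬ mid (lb z) := by
      intro hz
      apply hf
      rw [hzw.2.2.2.2 hz hm]
      exact hzx.2.1 hz
    have a1 := hwy.2.1
    have a2 := hwy.1
    have a3 := hzw.2.1
    have a4 := hzw.1
    unfold mid at hm hy hz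
    rw [a2] at hy
    rw [← a4] at hz
    generalize (lb y).v = yv at *
    generalize (lb z).v = zv at *
    generalize (lb w).v = wv at *
    generalize (lb w).h = wh at *
    clear * - a1 a3 hm hy hz
    revert yv zv wh wv
    decide

/-- no vertex has only one neighbour -/
theorem no_self [Finite V] (hD : Z_DG) (hN : Z_NB) (hL : LR G lb) {σ : Equiv.Perm G.Dart}
    (hσ : IsRotation G σ) {x a : V} (h : Cs G σ x a a) : False := by
  have h1 := (hN V G σ hσ).2.1 x a h
  have h2 : (G.neighborSet x).ncard ≤ 1 := by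
    rw [Set.ncard_le_one_iff]
    intro b c hb hc
    rw [h1 b hb, h1 c hc]
  have h3 := (hD V G lb hL).1 x
  rw [h3] at h2
  split_ifs at h2 <;> omega

theorem op1 [Finite V] (hD : Z_DG) (hN : Z_NB) (hF : Z_FC) (hL : LR G lb) {σ : Equiv.Perm G.Dart}
    (hσ : Quad G σ) {s : Bool} {x y z : V} (hzx : Er G lb s z x) (hxy : Er G lb s x y) :
    ¬ Cs G σ x y z ∧ ¬ Cs G σ x z y := by
  have hn := hN V G σ hσ.1
  constructor
  · intro h
    obtain ⟨w, h1, h2, h3⟩ := hF V G σ hσ x y z h
    have hw := uniq_ea hL hzx hxy (hn.1 _ _ _ h1).2 (hn.1 _ _ _ h2).2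
    rw [hw] at h1
    exact no_self hD hN hL hσ.1 h1
  · intro h
    obtain ⟨w, h1, h2, h3⟩ := hF V G σ hσ x z y h
    have hw := uniq_ea hL hzx hxy (hn.1 _ _ _ h2).2.symm (hn.1 _ _ _ h2).1
    rw [hw] at h1
    exact no_self hD hN hL hσ.1 h1

theorem op2 [Finite V] (hD : Z_DG) (hN : Z_NB) (hF : Z_FC) (hL : LR G lb) {σ : Equiv.Perm G.Dart}
    (hσ : Quad G σ) {s : Bool} {x y z : V} (hzx : Nr G lb s z x) (hxy : Nr G lb s x y) :
    ¬ Cs G σ x y z ∧ ¬ Cs G σ x z y := by
  have hn := hN V G σ hσ.1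
  constructor
  · intro h
    obtain ⟨w, h1, h2, h3⟩ := hF V G σ hσ x y z h
    have hw := uniq_no hL hzx hxy (hn.1 _ _ _ h1).2 (hn.1 _ _ _ h2).2
    rw [hw] at h1
    exact no_self hD hN hL hσ.1 h1
  · intro h
    obtain ⟨w, h1, h2, h3⟩ := hF V G σ hσ x z y h
    have hw := uniq_no hL hzx hxy (hn.1 _ _ _ h2).2.symm (hn.1 _ _ _ h2).1
    rw [hw] at h1
    exact no_self hD hN hL hσ.1 h1

/-- the neighbours, when four are known -/
theorem nb_eq [Finite V] (hD : Z_DG) (hL : LR G lb) {x a b c d : V} (ha : G.Adj x a)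
    (hb : G.Adj x b) (hc : G.Adj x c) (hd : G.Adj x d) (hn : [a, b, c, d].Nodup) :
    G.neighborSet x = {a, b, c, d} := by
  symm
  refine Set.eq_of_subset_of_ncard_le ?_ ?_ (Set.toFinite _)
  · intro u hu
    simp only [Set.mem_insert_iff, Set.mem_singleton_iff] at hu
    rcases hu with rfl | rfl | rfl | rfl <;> assumption
  · have h1 : ({a, b, c, d} : Set V).ncard = 4 := by
      simp only [List.nodup_cons, List.mem_cons, not_or, List.not_mem_nil, not_false_eq_true,
        List.nodup_nil, and_true] at hn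
      obtain ⟨⟨hab, hac, had⟩, ⟨hbc, hbd⟩, hcd⟩ := hn
      rw [Set.ncard_insert_of_notMem (by simp [hab, hac, had]),
        Set.ncard_insert_of_notMem (by simp [hbc, hbd]), Set.ncard_pair hcd]
    rw [h1, (hD V G lb hL).1 x]
    split_ifs <;> omega

theorem ei {s : Bool} {x y : V} (h : Er G lb s x y) : (lb y).i = (lb x).i + 1 := h.2.2.2.2.2.1
theorem ej {s : Bool} {x y : V} (h : Er G lb s x y) : (lb y).j = (lb x).j := h.2.2.2.2.2.2.1
theorem ni {s : Bool} {x y : V} (h : Nr G lb s x y) : (lb y).i = (lb x).i := h.2.2.2.2.2.1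
theorem nj {s : Bool} {x y : V} (h : Nr G lb s x y) : (lb y).j = (lb x).j + 1 := h.2.2.2.2.2.2.1

/-- two different east neighbours -/
theorem two_e (hL : LR G lb) {x y z : V} (hy : Er G lb true x y) (hz : Er G lb false x z)
    (hyz : y ≠ z) : (lb x).v ≠ 0 ∧ (lb x).v ≠ 3 := by
  by_contra hc
  have hv : (lb x).v = 0 ∨ (lb x).v = 3 := by tauto
  have hz' : ons true (lb z) := by
    intro hm
    exfalso
    have h1 := hz.2.2.2.2.1
    unfold mid at hm
    rw [h1] at hm
    rcases hv with hv | hv <;> rw [hv] at hm <;> revert hm <;> simp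
  exact hyz ((hL.ea true x hy.2.1 (stp_l3 hy.2.2.2.1)).unique hy ⟨hz.1, hy.2.1, hz', hz.2.2.2⟩)

theorem two_w (hL : LR G lb) {x y z : V} (hy : Er G lb true y x) (hz : Er G lb false z x)
    (hyz : y ≠ z) : (lb x).v ≠ 0 ∧ (lb x).v ≠ 3 := by
  by_contra hc
  have hv : (lb x).v = 0 ∨ (lb x).v = 3 := by tauto
  have hz' : ons true (lb z) := by
    intro hm
    exfalso
    have h1 := hz.2.2.2.2.1
    unfold mid at hm
    rw [← h1] at hm
    rcases hv with hv | hv <;> rw [hv] at hm <;> revert hm <;> simp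
  exact hyz ((hL.we true x hy.2.2.1 (stp_r0 hy.2.2.2.1)).unique hy ⟨hz.1, hz', hy.2.2.1, hz.2.2.2⟩)

theorem two_n (hL : LR G lb) {x y z : V} (hy : Nr G lb true x y) (hz : Nr G lb false x z)
    (hyz : y ≠ z) : (lb x).h ≠ 0 ∧ (lb x).h ≠ 3 := by
  by_contra hc
  have hv : (lb x).h = 0 ∨ (lb x).h = 3 := by tauto
  have hz' : ons true (lb z) := by
    intro hm
    exfalso
    have h1 := hz.2.2.2.1
    unfold mid at hm
    rw [h1] at hm
    rcases hv with hv | hv <;> rw [hv] at hm <;> revert hm <;> simp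
  exact hyz ((hL.no true x hy.2.1 (stp_l3 hy.2.2.2.2.1)).unique hy ⟨hz.1, hy.2.1, hz', hz.2.2.2⟩)

theorem two_s (hL : LR G lb) {x y z : V} (hy : Nr G lb true y x) (hz : Nr G lb false z x)
    (hyz : y ≠ z) : (lb x).h ≠ 0 ∧ (lb x).h ≠ 3 := by
  by_contra hc
  have hv : (lb x).h = 0 ∨ (lb x).h = 3 := by tauto
  have hz' : ons true (lb z) := by
    intro hm
    exfalso
    have h1 := hz.2.2.2.1
    unfold mid at hm
    rw [← h1] at hm
    rcases hv with hv | hv <;> rw [hv] at hm <;> revert hm <;> simp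
  exact hyz ((hL.so true x hy.2.2.1 (stp_r0 hy.2.2.2.2.1)).unique hy ⟨hz.1, hz', hy.2.2.1, hz.2.2.2⟩)

end

/-- Row OP. -/
theorem pf_op (hD : Z_DG) (hF : Z_FC) (hN : Z_NB) : Z_OP := by
  intro V _ G lb σ hL hσ
  have hn := hN V G σ hσ.1
  refine ⟨fun s x y z h1 h2 => op1 hD hN hF hL hσ h1 h2,
    fun s x y z h1 h2 => op2 hD hN hF hL hσ h1 h2, ?_, ?_, ?_, ?_⟩
  · intro x y z hy hz hyz
    obtain ⟨hv0, hv3⟩ := two_e hL hy hz hyz
    obtain ⟨n, hnn, -⟩ := hL.no true x hy.2.1 hv3
    obtain ⟨m, hm, -⟩ := hL.so true x hy.2.1 hv0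
    obtain ⟨h1, h2⟩ := op2 hD hN hF hL hσ hm hnn
    have hd : [n, m, y, z].Nodup := by
      simp only [List.nodup_cons, List.mem_cons, not_or, List.not_mem_nil, not_false_eq_true,
        List.nodup_nil, and_true]
      have e1 := ei hy; have e2 := ei hz; have e3 := ni hnn; have e4 := ni hm
      have f3 := nj hnn; have f4 := nj hm
      refine ⟨⟨?_, ?_, ?_⟩, ⟨?_, ?_⟩, hyz⟩
      · rintro rfl
        rw [f4] at f3
        generalize (lb n).j = t at f3
        revert f3; revert t; decide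
      · rintro rfl
        rw [e3] at e1
        generalize (lb x).i = t at e1
        revert e1; revert t; decide
      · rintro rfl
        rw [e3] at e2
        generalize (lb x).i = t at e2
        revert e2; revert t; decide
      · rintro rfl
        rw [e4] at e1
        generalize (lb m).i = t at e1
        revert e1; revert t; decide
      · rintro rfl
        rw [e4] at e2
        generalize (lb m).i = t at e2
        revert e2; revert t; decide
    have hs := nb_eq hD hL hnn.1 hm.1.symm hy.1 hz.1 hd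
    exact (hn.2.2.2 x n m y z hd hs h1 h2).2.2.2.2
  · intro x y z hy hz hyz
    obtain ⟨hv0, hv3⟩ := two_w hL hy hz hyz
    obtain ⟨n, hnn, -⟩ := hL.no true x hy.2.2.1 hv3
    obtain ⟨m, hm, -⟩ := hL.so true x hy.2.2.1 hv0
    obtain ⟨h1, h2⟩ := op2 hD hN hF hL hσ hm hnn
    have hd : [n, m, y, z].Nodup := by
      simp only [List.nodup_cons, List.mem_cons, not_or, List.not_mem_nil, not_false_eq_true,
        List.nodup_nil, and_true]
      have e1 := ei hy; have e2 := ei hz; have e3 := ni hnn; have e4 := ni hm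
      have f3 := nj hnn; have f4 := nj hm
      refine ⟨⟨?_, ?_, ?_⟩, ⟨?_, ?_⟩, hyz⟩
      · rintro rfl
        rw [f4] at f3
        generalize (lb n).j = t at f3
        revert f3; revert t; decide
      · rintro rfl
        rw [← e3] at e1
        generalize (lb n).i = t at e1
        revert e1; revert t; decide
      · rintro rfl
        rw [← e3] at e2
        generalize (lb n).i = t at e2
        revert e2; revert t; decide
      · rintro rfl
        rw [e4] at e1
        generalize (lb m).i = t at e1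
        revert e1; revert t; decide
      · rintro rfl
        rw [e4] at e2
        generalize (lb m).i = t at e2
        revert e2; revert t; decide
    have hs := nb_eq hD hL hnn.1 hm.1.symm hy.1.symm hz.1.symm hd
    exact (hn.2.2.2 x n m y z hd hs h1 h2).2.2.2.2
  · intro x y z hy hz hyz
    obtain ⟨hv0, hv3⟩ := two_n hL hy hz hyz
    obtain ⟨n, hnn, -⟩ := hL.ea true x hy.2.1 hv3
    obtain ⟨m, hm, -⟩ := hL.we true x hy.2.1 hv0
    obtain ⟨h1, h2⟩ := op1 hD hN hF hL hσ hm hnn
    have hd : [n, m, y, z].Nodup := by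
      simp only [List.nodup_cons, List.mem_cons, not_or, List.not_mem_nil, not_false_eq_true,
        List.nodup_nil, and_true]
      have e1 := nj hy; have e2 := nj hz; have e3 := ej hnn; have e4 := ej hm
      have f3 := ei hnn; have f4 := ei hm
      refine ⟨⟨?_, ?_, ?_⟩, ⟨?_, ?_⟩, hyz⟩
      · rintro rfl
        rw [f4] at f3
        generalize (lb n).i = t at f3
        revert f3; revert t; decide
      · rintro rfl
        rw [e3] at e1
        generalize (lb x).j = t at e1
        revert e1; revert t; decide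
      · rintro rfl
        rw [e3] at e2
        generalize (lb x).j = t at e2
        revert e2; revert t; decide
      · rintro rfl
        rw [e4] at e1
        generalize (lb m).j = t at e1
        revert e1; revert t; decide
      · rintro rfl
        rw [e4] at e2
        generalize (lb m).j = t at e2
        revert e2; revert t; decide
    have hs := nb_eq hD hL hnn.1 hm.1.symm hy.1 hz.1 hd
    exact (hn.2.2.2 x n m y z hd hs h1 h2).2.2.2.2
  · intro x y z hy hz hyz
    obtain ⟨hv0, hv3⟩ := two_s hL hy hz hyz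
    obtain ⟨n, hnn, -⟩ := hL.ea true x hy.2.2.1 hv3
    obtain ⟨m, hm, -⟩ := hL.we true x hy.2.2.1 hv0
    obtain ⟨h1, h2⟩ := op1 hD hN hF hL hσ hm hnn
    have hd : [n, m, y, z].Nodup := by
      simp only [List.nodup_cons, List.mem_cons, not_or, List.not_mem_nil, not_false_eq_true,
        List.nodup_nil, and_true]
      have e1 := nj hy; have e2 := nj hz; have e3 := ej hnn; have e4 := ej hm
      have f3 := ei hnn; have f4 := ei hm
      refine ⟨⟨?_, ?_, ?_⟩, ⟨?_, ?_⟩, hyz⟩
      · rintro rfl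
        rw [f4] at f3
        generalize (lb n).i = t at f3
        revert f3; revert t; decide
      · rintro rfl
        rw [← e3] at e1
        generalize (lb n).j = t at e1
        revert e1; revert t; decide
      · rintro rfl
        rw [← e3] at e2
        generalize (lb n).j = t at e2
        revert e2; revert t; decide
      · rintro rfl
        rw [e4] at e1
        generalize (lb m).j = t at e1
        revert e1; revert t; decide
      · rintro rfl
        rw [e4] at e2
        generalize (lb m).j = t at e2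
        revert e2; revert t; decide
    have hs := nb_eq hD hL hnn.1 hm.1.symm hy.1.symm hz.1.symm hd
    exact (hn.2.2.2 x n m y z hd hs h1 h2).2.2.2.2

/-- Row C2. -/
theorem pf_c2 (hD : Z_DG) (hF : Z_FC) (hN : Z_NB) (_hO : Z_OP) : Z_C2 := by
  intro V _ G lb σ hL hσ s x y z hx hy hz
  have hn := hN V G σ hσ.1
  have hyz : y ≠ z := by
    rintro rfl
    have e1 := ei hy; have e2 := ni hz
    rw [e2] at e1
    generalize (lb x).i = t at e1
    revert e1; revert t; decide
  have hsx : G.neighborSet x = {y, z} := by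
    symm
    refine Set.eq_of_subset_of_ncard_le ?_ ?_ (Set.toFinite _)
    · intro u hu
      simp only [Set.mem_insert_iff, Set.mem_singleton_iff] at hu
      rcases hu with rfl | rfl
      · exact hy.1
      · exact hz.1
    · rw [Set.ncard_pair hyz, (hD V G lb hL).1 x, if_pos ⟨Or.inl hx.1, Or.inl hx.2⟩]
  have hyh : (lb y).h = 1 := by
    have h1 := hy.2.2.2.1
    rw [hx.1] at h1
    generalize (lb y).h = t at h1
    revert h1; revert t; decide
  have hyv : (lb y).v = 0 := by
    have h1 := hy.2.2.2.2.1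
    rw [h1, hx.2]
  have hyo : ∀ s', ons s' (lb y) := by
    intro s' hm
    exfalso
    unfold mid at hm
    rw [hyv] at hm
    revert hm; simp
  have hxo : ∀ s', ons s' (lb x) := by
    intro s' hm
    exfalso
    unfold mid at hm
    rw [hx.2] at hm
    revert hm; simp
  have hxy : ∀ s', Er G lb s' x y := fun s' => ⟨hy.1, hxo s', hyo s', hy.2.2.2⟩
  obtain ⟨e, he, -⟩ := hL.ea s y (hyo s) (by rw [hyh]; decide)
  obtain ⟨w, hw, -⟩ := hL.no s y (hyo s) (by rw [hyv]; decide)
  obtain ⟨w', hw', -⟩ := hL.no (!s) y (hyo (!s)) (by rw [hyv]; decide)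
  have hmid : ∀ s' u, Nr G lb s' y u → (lb u).f = s' := by
    intro s' u hu
    apply hu.2.2.1
    have h1 := hu.2.2.2.1
    have h2 := hu.2.2.2.2.1
    rw [hyv] at h2
    unfold mid
    rw [h1, hyh]
    refine ⟨Or.inl rfl, ?_⟩
    generalize (lb u).v = t at h2
    revert h2; revert t; decide
  have hww : w ≠ w' := by
    rintro rfl
    have h1 := hmid _ _ hw
    have h2 := hmid _ _ hw'
    rw [h1] at h2
    revert h2; cases s <;> decide
  have hd : [x, e, w, w'].Nodup := by
    simp only [List.nodup_cons, List.mem_cons, not_or, List.not_mem_nil, not_false_eq_true,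
      List.nodup_nil, and_true]
    have e1 := ei hy; have e2 := ei he; have e3 := ni hw; have e4 := ni hw'
    refine ⟨⟨?_, ?_, ?_⟩, ⟨?_, ?_⟩, hww⟩
    · rintro rfl
      rw [e1] at e2
      generalize (lb x).i = t at e2
      revert e2; revert t; decide
    · rintro rfl
      rw [e3] at e1
      generalize (lb y).i = t at e1
      revert e1; revert t; decide
    · rintro rfl
      rw [e4] at e1
      generalize (lb y).i = t at e1
      revert e1; revert t; decide
    · rintro rfl
      rw [e3] at e2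
      generalize (lb y).i = t at e2
      revert e2; revert t; decide
    · rintro rfl
      rw [e4] at e2
      generalize (lb y).i = t at e2
      revert e2; revert t; decide
  have hs := nb_eq hD hL hy.1.symm he.1 hw.1 hw'.1 hd
  obtain ⟨h1, h2⟩ := op1 hD hN hF hL hσ (hxy s) he
  have hc := (hn.2.2.2 y x e w w' hd hs h2 h1).1
  have hnx : ∀ u, G.Adj x u → u ≠ y → u = z := by
    intro u hu huy
    have : u ∈ G.neighborSet x := hu
    rw [hsx] at this
    simp only [Set.mem_insert_iff, Set.mem_singleton_iff] at this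
    tauto
  have hzw : G.Adj z w := by
    rcases hc with hc | hc
    · obtain ⟨w2, c1, c2, c3⟩ := hF V G σ hσ y x w hc
      have h3 : w2 = z := hnx w2 (hn.1 _ _ _ c3).1 (by
        rintro rfl
        exact no_self hD hN hL hσ.1 c3)
      rw [← h3]
      exact (hn.1 _ _ _ c2).1
    · obtain ⟨w2, c1, c2, c3⟩ := hF V G σ hσ y w x hc
      have h3 : w2 = z := hnx w2 (hn.1 _ _ _ c1).2 (by
        rintro rfl
        exact no_self hD hN hL hσ.1 c1)
      rw [← h3]
      exact (hn.1 _ _ _ c2).2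
  refine ⟨w, ⟨hzw, hz.2.2.1, hw.2.2.1, ?_⟩, hw⟩
  have g1 : (lb w).i - (lb z).i = 1 := by
    rw [ni hw, ei hy, ni hz]; ring
  rcases adj_co hL hzw with ⟨a, b, _⟩ | ⟨a, b, _⟩ | ⟨a, b, _⟩ | ⟨a, b, _⟩ <;> rw [g1] at b <;>
    first | exact a | exact absurd b (by decide)

end Pool.Agent.H93.PL
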